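import Pool.Agent.W2helper26.PB.Stm

/-!
# Algorithms do not find the hits (piece FOUND)
-/

set_option autoImplicit false

namespace Pool.Agent.W2helper47.PB

open Pool.Agent.NPC Pool.Agent.H620R2.Gauge Pool.Agent.W2helper26.PB Filter MeasureTheory

/-! ### The questions of an algorithm -/

open Classical in
/-- the set of the questions -/
noncomputable def ask (M : Alg) (A : Oracle) (x : List Bool) : ℕ → List Bool → Finset (List Bool)
  | 0, _ => ∅
  | n + 1, a =>
    match M.D (pairBits x a) with
    | [] => ∅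
    | true :: _ => ∅
    | false :: q => insert q (ask M A x n (a ++ [A q]))

theorem ask_card (M : Alg) (A : Oracle) (x : List Bool) :
    ∀ (n : ℕ) (a : List Bool), (ask M A x n a).card ≤ n := by
  classical
  intro n
  induction n with
  | zero => intro a; simp [ask]
  | succ n ih =>
    intro a
    rcases hq : M.D (pairBits x a) with _ | ⟨c, q⟩
    · simp [ask, hq]
    · cases c with
      | true => simp [ask, hq]
      | false =>
        simp only [ask, hq]
        exact (Finset.card_insert_le _ _).trans (Nat.succ_le_succ (ih _))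

theorem ask_length {M : Alg} {b : Polynomial ℕ} (hb : ∀ x a : List Bool,
    a.length ≤ M.p.eval x.length → (M.D (pairBits x a)).length ≤ b.eval x.length)
    (A : Oracle) (x : List Bool) : ∀ (n : ℕ) (a : List Bool), a.length + n ≤ M.p.eval x.length →
      ∀ q ∈ ask M A x n a, q.length ≤ b.eval x.length := by
  classical
  intro n
  induction n with
  | zero => intro a _ q hq; simp [ask] at hq
  | succ n ih =>
    intro a ha r hr
    have hD := hb x a (by omega)
    rcases hq : M.D (pairBits x a) with _ | ⟨c, q⟩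
    · simp [ask, hq] at hr
    · cases c with
      | true => simp [ask, hq] at hr
      | false =>
        simp only [ask, hq] at hr
        rcases Finset.mem_insert.1 hr with rfl | hr
        · rw [hq, List.length_cons] at hD
          omega
        · exact ih _ (by rw [List.length_append, List.length_singleton]; omega) r hr

theorem ask_local (M : Alg) (A A' : Oracle) (x : List Bool) : ∀ (n : ℕ) (a : List Bool),
    (∀ q ∈ ask M A x n a, A' q = A q) →
      M.run A' x n a = M.run A x n a ∧ ask M A' x n a = ask M A x n a := by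
  classical
  intro n
  induction n with
  | zero => intro a _; exact ⟨rfl, rfl⟩
  | succ n ih =>
    intro a hA
    rcases hq : M.D (pairBits x a) with _ | ⟨c, q⟩
    · simp [ask, Alg.run, hq]
    · cases c with
      | true => simp [ask, Alg.run, hq]
      | false =>
        simp only [ask, hq] at hA
        have h1 : A' q = A q := hA q (Finset.mem_insert_self _ _)
        obtain ⟨h2, h3⟩ := ih (a ++ [A q]) fun r hr => hA r (Finset.mem_insert_of_mem hr)
        simp only [ask, Alg.run, hq, h1]
        exact ⟨h2, by rw [h3]⟩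

/-! ### The leaked bits -/

open Classical in
/-- `B` with the values `1` on `τ` and `0` on `S \ τ` -/
noncomputable def ov (S τ : Finset (List Bool)) (B : Oracle) : Oracle := fun y =>
  if y ∈ S then decide (y ∈ τ) else B y

theorem ov_congr (S τ : Finset (List Bool)) {B B' : Oracle} {y : List Bool} (h : B y = B' y) :
    ov S τ B y = ov S τ B' y := by
  unfold ov
  split_ifs
  · rfl
  · exact h

/-- the word found -/
noncomputable def Wd (M : Alg) (n : ℕ) (C : Oracle) : List Bool :=
  List.ofFn fun i : Fin n => decide (M.out C (qs n i) = some [true])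

open Classical in
/-- the questions -/
noncomputable def Qd (M : Alg) (n : ℕ) (C : Oracle) : Finset (List Bool) :=
  (Finset.range n).biUnion fun i => ask M C (qs n i) (M.p.eval (qs n i).length) []

theorem qs_length (n i : ℕ) (hi : i < n) : (qs n i).length ≤ 3 * n + 1 := by
  unfold qs
  rw [length_pairBits, List.length_replicate, List.length_replicate]
  omega

theorem qd_card (M : Alg) (n : ℕ) (C : Oracle) :
    (Qd M n C).card ≤ n * M.p.eval (3 * n + 1) := by
  classical
  unfold Qd
  refine Finset.card_biUnion_le.trans ?_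
  calc ∑ i ∈ Finset.range n, (ask M C (qs n i) (M.p.eval (qs n i).length) []).card
      ≤ ∑ _i ∈ Finset.range n, M.p.eval (3 * n + 1) := by
        refine Finset.sum_le_sum fun i hi => (ask_card M C _ _ _).trans ?_
        exact eval_mono _ (qs_length n i (Finset.mem_range.1 hi))
    _ = n * M.p.eval (3 * n + 1) := by
        rw [Finset.sum_const, Finset.card_range, smul_eq_mul]

theorem qd_length {M : Alg} {b : Polynomial ℕ} (hb : ∀ x a : List Bool,
    a.length ≤ M.p.eval x.length → (M.D (pairBits x a)).length ≤ b.eval x.length)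
    (n : ℕ) (C : Oracle) : ∀ q ∈ Qd M n C, q.length ≤ b.eval (3 * n + 1) := by
  classical
  intro q hq
  unfold Qd at hq
  rw [Finset.mem_biUnion] at hq
  obtain ⟨i, hi, hq⟩ := hq
  refine (ask_length hb C (qs n i) _ _ (by simp) q hq).trans ?_
  exact eval_mono _ (qs_length n i (Finset.mem_range.1 hi))

theorem wd_local (M : Alg) (n : ℕ) (C C' : Oracle) (h : ∀ q ∈ Qd M n C, C' q = C q) :
    Wd M n C' = Wd M n C ∧ Qd M n C' = Qd M n C := by
  classical
  have key : ∀ i < n, M.out C' (qs n i) = M.out C (qs n i) ∧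
      ask M C' (qs n i) (M.p.eval (qs n i).length) [] =
        ask M C (qs n i) (M.p.eval (qs n i).length) [] := by
    intro i hi
    refine ask_local M C C' _ _ _ fun q hq => h q ?_
    unfold Qd
    rw [Finset.mem_biUnion]
    exact ⟨i, Finset.mem_range.2 hi, hq⟩
  constructor
  · unfold Wd
    congr 1
    funext i
    rw [(key i i.2).1]
  · unfold Qd
    refine Finset.biUnion_congr rfl fun i hi => (key i (Finset.mem_range.1 hi)).2

/-! ### Estimates -/

theorem summable_poly (R : Polynomial ℕ) :
    Summable fun n : ℕ => ((R.eval n : ℕ) : ℝ) * (1 / 2) ^ n := by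
  induction R using Polynomial.induction_on' with
  | add p q hp hq =>
    have := hp.add hq
    refine this.congr fun n => ?_
    rw [Polynomial.eval_add]
    push_cast
    ring
  | monomial k a =>
    have h1 : Summable fun n : ℕ => (n : ℝ) ^ k * (1 / 2) ^ n :=
      summable_pow_mul_geometric_of_norm_lt_one k (by norm_num)
    refine (h1.mul_left (a : ℝ)).congr fun n => ?_
    rw [Polynomial.eval_monomial]
    push_cast
    ring

theorem two_pow_le {c₀ s ℓ : ℕ} (hℓ : 4 ≤ ℓ)
    (hs : (s : ℝ) ≤ 4 / 2 ^ c₀ * Real.logb 2 (Real.logb 2 ℓ)) : (2 : ℝ) ^ s ≤ (ℓ : ℝ) ^ 4 := by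
  have hℓ' : (4 : ℝ) ≤ ℓ := by exact_mod_cast hℓ
  have h1 : (2 : ℝ) ≤ Real.logb 2 ℓ := by
    have h2 : Real.logb 2 ((2 : ℝ) ^ (2 : ℝ)) ≤ Real.logb 2 ℓ := by
      apply Real.logb_le_logb_of_le (by norm_num) (by positivity)
      refine le_trans ?_ hℓ'
      norm_num
    rwa [Real.logb_rpow (by norm_num) (by norm_num)] at h2
  have h3 : 0 ≤ Real.logb 2 (Real.logb 2 ℓ) := Real.logb_nonneg (by norm_num) (by linarith)
  have h4 : (s : ℝ) ≤ 4 * Real.logb 2 (Real.logb 2 ℓ) := by
    refine hs.trans (mul_le_mul_of_nonneg_right ?_ h3)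
    apply div_le_self (by norm_num)
    exact one_le_pow₀ (by norm_num)
  have h5 : Real.logb 2 ℓ ≤ ℓ := by
    have h6 : (ℓ : ℝ) ≤ 2 ^ (ℓ : ℝ) := by
      rw [Real.rpow_natCast]
      exact_mod_cast Nat.lt_two_pow_self.le
    have h7 : Real.logb 2 ℓ ≤ Real.logb 2 ((2 : ℝ) ^ (ℓ : ℝ)) :=
      Real.logb_le_logb_of_le (by norm_num) (by linarith) h6
    rwa [Real.logb_rpow (by norm_num) (by norm_num)] at h7
  calc (2 : ℝ) ^ s = 2 ^ (s : ℝ) := (Real.rpow_natCast 2 s).symm
    _ ≤ 2 ^ (4 * Real.logb 2 (Real.logb 2 ℓ)) := Real.rpow_le_rpow_of_exponent_le (by norm_num) h4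
    _ = (Real.logb 2 ℓ) ^ 4 := by
        rw [mul_comm, Real.rpow_mul (by norm_num), Real.rpow_logb (by norm_num) (by norm_num)
          (by linarith)]
        exact_mod_cast rfl
    _ ≤ (ℓ : ℝ) ^ 4 := pow_le_pow_left₀ (by linarith) h5 4

/-! ### The piece -/

theorem p_found : P_found := by
  classical
  intro hcore hcnt c₀ Φ hΦ M
  obtain ⟨b, hb⟩ := M.next_length
  set ℓ : ℕ → ℕ := fun n => b.eval (3 * n + 1) + 4 with hℓ
  have hS : ∀ n, {y : List Bool | (∃ i m, y = gam c₀ i m) ∧ y.length ≤ ℓ n}.Finite := fun n =>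
    (hcnt c₀ (ℓ n) (by simp only [hℓ]; omega)).1
  set S : ℕ → Finset (List Bool) := fun n => (hS n).toFinset with hSdef
  have hScard : ∀ n, (2 : ℝ) ^ (S n).card ≤ (ℓ n : ℝ) ^ 4 := by
    intro n
    have h1 := (hcnt c₀ (ℓ n) (by simp only [hℓ]; omega)).2
    rw [Set.ncard_eq_toFinset_card _ (hS n)] at h1
    exact two_pow_le (by simp only [hℓ]; omega) h1
  set D : ℕ → ℕ := fun n => n * M.p.eval (3 * n + 1) with hD
  set E : ℕ → Set Oracle := fun n => {B | ∃ w : List Bool, w.length = n ∧ Hit B w ∧
      ∀ i < n, M.out (Φ B) (qs n i) = some [true] ↔ w.getD i false = true} with hE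
  -- the event is covered
  have hsub : ∀ n, E n ⊆ ⋃ τ ∈ (S n).powerset,
      {B | (Wd M n (ov (S n) τ B)).length = n ∧ Hit B (Wd M n (ov (S n) τ B))} := by
    intro n B hB
    obtain ⟨w, hw, hhit, hbits⟩ := hB
    have hagree : ∀ y : List Bool, y.length ≤ ℓ n →
        Φ B y = ov (S n) ((S n).filter fun y => Φ B y = true) B y := by
      intro y hy
      unfold ov
      by_cases hyS : y ∈ S n
      · rw [if_pos hyS]
        simp only [Finset.mem_filter, hyS, true_and]
        cases Φ B y <;> simp
      · rw [if_neg hyS]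
        refine hΦ B y fun i m hym => hyS ?_
        simp only [hSdef, Set.Finite.mem_toFinset, Set.mem_ofPred_eq]
        exact ⟨⟨i, m, hym⟩, hy⟩
    have hW := (wd_local M n (Φ B) (ov (S n) ((S n).filter fun y => Φ B y = true) B)
      (fun q hq => (hagree q ((qd_length hb n _ q hq).trans (by simp only [hℓ]; omega))).symm)).1
    have hWw : Wd M n (Φ B) = w := by
      apply List.ext_getElem
      · rw [hw]
        simp [Wd]
      · intro i h1 h2
        have hi : i < n := by rw [← hw]; exact h2
        have h3 := hbits i hi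
        rw [List.getD_eq_getElem _ _ h2] at h3
        simp only [Wd, List.getElem_ofFn]
        rw [Bool.eq_iff_iff, decide_eq_true_iff]
        exact h3
    rw [Set.mem_iUnion₂]
    refine ⟨_, Finset.mem_powerset.2 (Finset.filter_subset (fun y => Φ B y = true) (S n)), ?_⟩
    simp only [Set.mem_ofPred_eq]
    rw [hW, hWw]
    exact ⟨hw, hhit⟩
  have hmeas : ∀ n, ranO (E n) ≤ ENNReal.ofReal
      (((((Polynomial.X * M.p.comp (3 * Polynomial.X + 1) + 1) *
        (b.comp (3 * Polynomial.X + 1) + 4) ^ 4).eval n : ℕ) : ℝ) * (1 / 2) ^ n) := by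
    intro n
    have h1 : ∀ τ ∈ (S n).powerset,
        ranO {B | (Wd M n (ov (S n) τ B)).length = n ∧ Hit B (Wd M n (ov (S n) τ B))} ≤
          ENNReal.ofReal ((D n + 1) * (1 / 2 : ℝ) ^ Pool.Agent.W2helper26.PB.hb n) := by
      intro τ _
      refine hcore n (D n) (ℓ n) (fun B => Wd M n (ov (S n) τ B)) (fun B => Qd M n (ov (S n) τ B))
        (fun B => qd_card M n _) ?_ ?_
      · intro B B' h
        exact ((wd_local M n (ov (S n) τ B) (ov (S n) τ B')
          fun q hq => ov_congr _ _ (h q hq).symm).1).symm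
      · intro B B' h
        have h2 := wd_local M n (ov (S n) τ B) (ov (S n) τ B')
          fun q hq => ov_congr _ _ (h q ((qd_length hb n _ q hq).trans
            (by simp only [hℓ]; omega))).symm
        exact ⟨h2.1.symm, h2.2.symm⟩
    refine (measure_mono (hsub n)).trans ((measure_biUnion_finset_le _ _).trans
      ((Finset.sum_le_sum h1).trans ?_))
    rw [Finset.sum_const, Finset.card_powerset, nsmul_eq_mul]
    have h3 : ((2 ^ (S n).card : ℕ) : ENNReal) = ENNReal.ofReal ((2 : ℝ) ^ (S n).card) := by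
      rw [ENNReal.ofReal_pow (by norm_num)]
      push_cast
      simp
    rw [h3, ← ENNReal.ofReal_mul (by positivity)]
    apply ENNReal.ofReal_le_ofReal
    have h4 : (1 / 2 : ℝ) ^ Pool.Agent.W2helper26.PB.hb n ≤ (1 / 2) ^ n :=
      pow_le_pow_of_le_one (by norm_num) (by norm_num) (by unfold Pool.Agent.W2helper26.PB.hb; omega)
    have h5 : ((((Polynomial.X * M.p.comp (3 * Polynomial.X + 1) + 1) *
        (b.comp (3 * Polynomial.X + 1) + 4) ^ 4).eval n : ℕ) : ℝ) = (D n + 1) * (ℓ n : ℝ) ^ 4 := by
      simp only [Polynomial.eval_mul, Polynomial.eval_add, Polynomial.eval_X, Polynomial.eval_comp,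
        Polynomial.eval_one, Polynomial.eval_pow, Polynomial.eval_ofNat, hD, hℓ]
      push_cast
      ring
    rw [h5]
    calc (2 : ℝ) ^ (S n).card * ((D n + 1) * (1 / 2 : ℝ) ^ Pool.Agent.W2helper26.PB.hb n)
        ≤ (ℓ n : ℝ) ^ 4 * ((D n + 1) * (1 / 2) ^ n) := by
          apply mul_le_mul (hScard n) _ (by positivity) (by positivity)
          exact mul_le_mul_of_nonneg_left h4 (by positivity)
      _ = (D n + 1) * (ℓ n : ℝ) ^ 4 * (1 / 2) ^ n := by ring
  have hsum : ∑' n, ranO (E n) ≠ ⊤ :=
    ne_top_of_le_ne_top (summable_poly _).tsum_ofReal_ne_top (ENNReal.tsum_le_tsum hmeas)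
  exact ae_eventually_notMem hsum

end Pool.Agent.W2helper47.PB
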